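import Pool.Agent.Helper24.ON.H2.LD.PosFour
import Pool.Agent.Helper24.ON.H80.LL.Top

set_option autoImplicit false

/-!
MP_120218_co: one number controls sums and products. Finite sets of integers.
-/

open Finset
open Pool.Agent.Helper84.SP
open Pool.Agent.Helper80.LL

namespace Pool.Agent.Helper2.LD

/-- from logarithms to powers -/
theorem pow_form {b Lb L' x M : ℝ} (hb : 0 < b) (hLb : Lb = Real.log b) (h0 : 0 ≤ Lb)
    (h1 : Lb ≤ L') (hx : x * L' ≤ Real.log M) (hM : 1 ≤ M) : b ^ x ≤ M := by
  have hM0 : 0 < M := by linarith only [hM]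
  have h2 : Lb * x ≤ Real.log M := by
    rcases le_total 0 x with h | h
    · have := mul_le_mul_of_nonneg_left h1 h
      linarith
    · have h3 := mul_nonpos_of_nonneg_of_nonpos h0 h
      have h4 := Real.log_nonneg hM
      linarith
  rw [Real.rpow_def_of_pos hb, ← hLb]
  calc Real.exp (Lb * x) ≤ Real.exp (Real.log M) := Real.exp_le_exp.2 h2
    _ = M := Real.exp_log hM0

/-- one number `s` controls the growth of all iterated sumsets and product sets -/
theorem four : ∃ c C : ℝ, 0 < c ∧ 0 < C ∧ ∀ A : Finset ℤ, 16 ≤ A.card →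
    ∃ s : ℝ, 0 ≤ s ∧ s ≤ 1 ∧
      (∀ h : ℕ, 1 ≤ h → (h : ℝ) ≤ Real.log A.card →
        (A.card : ℝ) ^ (1 + c * (s - C / Real.log (Real.log A.card)) * Real.log h) ≤
          ((hsum A h).card : ℝ)) ∧
      (∀ h : ℕ, 1 ≤ h →
        ((A.card : ℝ) / 4) ^ ((h : ℝ) * (1 - C * (1 - s) * Real.log (h / (1 - s)))) ≤
          ((hsum A h).card : ℝ)) ∧
      (∀ k : ℕ, 1 ≤ k →
        ((A.card : ℝ) / 4) ^ (1 + c * (1 - s) * Real.log k) ≤ ((kprod A k).card : ℝ)) ∧
      (∀ k : ℕ, 2 ≤ k →
        ((A.card : ℝ) / 4) ^ ((k : ℝ) * (1 - C * s * Real.log k)) ≤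
          ((kprod A k).card : ℝ)) := by
  refine ⟨1 / 64000000 / 8, 1024000000, by norm_num, by norm_num, ?_⟩
  intro A hA16
  have hA : A.Nonempty := card_pos.1 (by omega)
  have h0 : (0 : ℤ) ∉ A.erase 0 := by simp
  obtain ⟨A', e, hA'pos, he, hA', hcard⟩ := signed (A.erase 0) h0
  have hcard1 : A.card ≤ (A.erase 0).card + 1 := by
    have := pred_card_le_card_erase (s := A) (a := (0 : ℤ))
    omega
  have hcard2 : A.card ≤ 4 * A'.card := by omega
  have hcard2' : (A.card : ℝ) ≤ 4 * A'.card := by exact_mod_cast hcard2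
  have hcard4 : 4 ≤ A'.card := by omega
  have hA'ne : A'.Nonempty := card_pos.1 (by omega)
  have hA'' : ∀ y ∈ A', e * (y : ℤ) ∈ A := fun y hy => (mem_erase.1 (hA' y hy)).2
  have pA : (0 : ℝ) < A.card := by exact_mod_cast card_pos.2 hA
  have pA' : (0 : ℝ) < A'.card := by exact_mod_cast card_pos.2 hA'ne
  have hA16' : (16 : ℝ) ≤ A.card := by exact_mod_cast hA16
  obtain ⟨L, hLdef⟩ : ∃ L, L = Real.log A.card := ⟨_, rfl⟩
  obtain ⟨L', hL'def⟩ : ∃ L', L' = Real.log A'.card := ⟨_, rfl⟩
  obtain ⟨Lb, hLb⟩ : ∃ Lb, Lb = Real.log ((A.card : ℝ) / 4) := ⟨_, rfl⟩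
  have hL' : L ≤ L' + Real.log 4 := by
    rw [hLdef, hL'def, ← Real.log_mul pA'.ne' (by norm_num)]
    apply Real.log_le_log pA
    linarith only [hcard2']
  have hLb0 : 0 ≤ Lb := by
    rw [hLb]
    apply Real.log_nonneg
    linarith only [hA16']
  have hLb1 : Lb ≤ L' := by
    rw [hLb, Real.log_div pA.ne' (by norm_num), ← hLdef]
    linarith only [hL']
  have hL : 4 * Real.log 2 ≤ L := by
    have h16 : 4 * Real.log 2 = Real.log 16 := by
      have : (16 : ℝ) = 2 ^ 4 := by norm_num
      rw [this, Real.log_pow]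
      norm_num
    rw [h16, hLdef]
    exact Real.log_le_log (by norm_num) hA16'
  have l2 := Real.log_two_gt_d9
  have l2' := Real.log_two_lt_d9
  have h4 := Top_log_four
  have hL2 : 2 < L := by linarith only [hL, l2]
  have hL'1 : 1 < L' := by linarith only [hL', hL, l2, h4]
  have hlogL : 0 < Real.log L := Real.log_pos (by linarith only [hL2])
  obtain ⟨s, hs0, hs1, hP1, hS1, hP2, hS2⟩ := posFour hcard4 hA'pos hL'def
  have t1 : ∀ h, Real.log (it al A' h).card ≤ Real.log (hsum A h).card := by
    intro h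
    apply Real.log_le_log
    · exact_mod_cast card_pos.2 (it_nonempty hA'ne h)
    · exact_mod_cast it_al_card he hA'' h
  have t2 : ∀ k, Real.log (it be A' k).card ≤ Real.log (kprod A k).card := by
    intro k
    apply Real.log_le_log
    · exact_mod_cast card_pos.2 (it_nonempty hA'ne k)
    · exact_mod_cast it_be_card he hA'pos hA'' k
  have o1 : ∀ h, (1 : ℝ) ≤ (hsum A h).card := fun h => by exact_mod_cast card_hsum_pos hA h
  have o2 : ∀ k, (1 : ℝ) ≤ (kprod A k).card := fun k => by exact_mod_cast card_kprod_pos hA k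
  have hpb : (0 : ℝ) < (A.card : ℝ) / 4 := by positivity
  have triv : ∀ h : ℕ, 1 ≤ h → L ≤ Real.log (hsum A h).card := by
    intro h hh
    rw [hLdef]
    exact Real.log_le_log pA (by exact_mod_cast Top_card_le_hsum hA hh)
  refine ⟨s, hs0, hs1, ?_, ?_, ?_, ?_⟩
  · -- sums, logarithmic growth
    intro h hh hhL
    rw [← hLdef] at hhL ⊢
    apply pow_form pA hLdef (by linarith only [hhL]) le_rfl _ (o1 h)
    have hlogh : 0 ≤ Real.log (h : ℝ) := Real.log_natCast_nonneg h
    rcases le_or_gt (s - 1024000000 / Real.log L) 0 with hc | hc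
    · have h1 := triv h hh
      have h2 : 1 / 64000000 / 8 * (s - 1024000000 / Real.log L) * Real.log h * L ≤ 0 := by
        have h3 : (s - 1024000000 / Real.log L) * (Real.log h * L) ≤ 0 :=
          mul_nonpos_of_nonpos_of_nonneg hc (by positivity)
        linarith only [h3]
      linarith only [h1, h2]
    · by_cases h1 : h = 1
      · subst h1
        have h2 := triv 1 le_rfl
        simpa using h2
      have hsL : 1024000000 < s * Real.log L := by
        have h2 : 1024000000 / Real.log L < s := by linarith only [hc]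
        rwa [div_lt_iff₀ hlogL] at h2
      have e1 : Real.log L ≤ 2 * Real.log (2 + L') := by
        have h2 : Real.log L ≤ Real.log ((2 + L') ^ 2) := by
          apply Real.log_le_log (by linarith only [hL2])
          nlinarith only [hL', l2', h4]
        rwa [Real.log_pow, Nat.cast_ofNat] at h2
      have hsL' : 512000000 ≤ s * Real.log (2 + L') := by
        have := mul_le_mul_of_nonneg_left e1 hs0
        linarith only [hsL, this]
      have hn1 : 1 ≤ Nat.log 2 h := Nat.log_pos (by norm_num) (by omega)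
      have hpw : 2 ^ Nat.log 2 h ≤ h := Nat.pow_log_le_self 2 (by omega)
      have hpw' : ((2 : ℝ)) ^ Nat.log 2 h ≤ h := by exact_mod_cast hpw
      have hk1 := hS1 (by linarith only [hsL']) (Nat.log 2 h) (by nlinarith only [hL', l2', h4, hhL, hpw'])
      have hmono : Real.log (it al A' (2 ^ Nat.log 2 h)).card ≤ Real.log (it al A' h).card := by
        apply Real.log_le_log
        · exact_mod_cast card_pos.2 (it_nonempty hA'ne _)
        · exact_mod_cast it_mono hA'ne hpw
      have h3 := t1 h
      have h5 := Top_sum_num (c := 1 / 64000000) (s := s) (L := L) (L' := L')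
        (S := Real.log (hsum A h).card) (n := (Nat.log 2 h : ℝ)) (lh := Real.log h)
        (by norm_num) (by
          have e2 : (8 : ℝ) / (1 / 64000000) = 512000000 := by norm_num
          rw [e2]
          exact hsL') hL hL' (by exact_mod_cast hn1) (Top_log_le hh) (by linarith only [hk1, hmono, h3])
      have h6 : 0 ≤ 1024000000 / Real.log L * (Real.log h * L) := by positivity
      linarith only [h5, h6]
  · -- sums, nearly full growth
    intro h hh
    apply pow_form hpb hLb hLb0 hLb1 _ (o1 h)
    have h1 := hS2 h hh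
    have h2 := t1 h
    have hhp : (0 : ℝ) < h := by exact_mod_cast hh
    have hh1 : (1 : ℝ) ≤ h := by exact_mod_cast hh
    have h3 : 0 ≤ (1 - s) * Real.log (h / (1 - s)) := by
      rcases hs1.lt_or_eq with h5 | h5
      · apply mul_nonneg (by linarith only [h5])
        apply Real.log_nonneg
        rw [le_div_iff₀ (by linarith only [h5])]
        linarith only [hs0, hh1]
      · rw [h5]
        simp
    have h6 : 0 ≤ (h : ℝ) * L' * ((1 - s) * Real.log (h / (1 - s))) := by positivity
    linarith only [h1, h2, h6]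
  · -- products, logarithmic growth
    intro k hk
    apply pow_form hpb hLb hLb0 hLb1 _ (o2 k)
    have h1 := hP2 (Nat.log 2 k)
    have h2 := t2 k
    have hpw : 2 ^ Nat.log 2 k ≤ k := Nat.pow_log_le_self 2 (by omega)
    have hmono : Real.log (it be A' (2 ^ Nat.log 2 k)).card ≤ Real.log (it be A' k).card := by
      apply Real.log_le_log
      · exact_mod_cast card_pos.2 (it_nonempty hA'ne _)
      · exact_mod_cast it_mono hA'ne hpw
    have h3 := Top_log_le hk
    have h5 : Real.log k ≤ 2 * (Nat.log 2 k : ℝ) := by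
      have : 2 * (Nat.log 2 k : ℝ) * Real.log 2 ≤ 2 * (Nat.log 2 k : ℝ) * 1 :=
        mul_le_mul_of_nonneg_left (by linarith only [l2']) (by positivity)
      linarith only [h3, this]
    have h6 : (1 - s) * Real.log k * L' ≤ (1 - s) * (2 * (Nat.log 2 k : ℝ)) * L' := by
      apply mul_le_mul_of_nonneg_right _ (by linarith only [hL'1])
      exact mul_le_mul_of_nonneg_left h5 (by linarith only [hs1])
    have h7 : 0 ≤ (1 - s) * (Nat.log 2 k : ℝ) * L' := by
      have h8 : 0 ≤ 1 - s := by linarith only [hs1]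
      positivity
    linarith only [h1, h2, hmono, h6, h7]
  · -- products, nearly full growth
    intro k hk
    apply pow_form hpb hLb hLb0 hLb1 _ (o2 k)
    have h1 := hP1 k hk
    have h2 := t2 k
    have hlogk : 0 ≤ Real.log (k : ℝ) := Real.log_natCast_nonneg k
    have h6 : 0 ≤ (k : ℝ) * L' * (s * Real.log k) := by positivity
    linarith only [h1, h2, h6]

end Pool.Agent.Helper2.LD
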