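import Pool.Agent.Helper24.ON.H2.LD.SumYield
import Pool.Agent.Helper24.ON.H80.LL.Key
import Pool.Agent.Helper24.ON.H88.PP.Pay

set_option autoImplicit false

/-!
MP_120218_co: one number controls sums and products. Positive integers.
-/

open Finset
open Pool.Agent.Helper84.SP
open Pool.Agent.Helper80.LL
open Pool.Agent.Helper88.PP
open Pool.Agent.Helper88.TL

namespace Pool.Agent.Helper2.LD

/-- the complementary defect is non-negative -/
theorem Fd_nonneg (ps : List ℕ) : ∀ D : Finset ℕ, D.Nonempty → 0 ≤ Fd ps D := by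
  induction ps with
  | nil =>
    intro D _
    unfold Fd Psi
    rw [zero_div, sub_zero]
    exact Real.log_natCast_nonneg _
  | cons q ps ihp =>
    intro D
    induction D using Finset.strongInduction with
    | H D ih =>
    intro hDne
    obtain ⟨ym, hym, hmin⟩ := exists_min_image D (fun y => y.factorization q) hDne
    obtain ⟨l, hl⟩ : ∃ l, l = ym.factorization q := ⟨_, rfl⟩
    rw [← hl] at hmin
    by_cases hconst : ∀ y ∈ D, y.factorization q = l
    · have h1 := ihp D hDne
      unfold Fd at h1 ⊢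
      rw [Psi_const hDne hconst]
      exact h1
    push Not at hconst
    obtain ⟨y₁, hy₁, hne₁⟩ := hconst
    obtain ⟨D₀, hD₀⟩ : ∃ D₀, D₀ = D.filter (fun y => y.factorization q = l) := ⟨_, rfl⟩
    obtain ⟨D₁, hD₁⟩ : ∃ D₁, D₁ = D.filter (fun y => l < y.factorization q) := ⟨_, rfl⟩
    have hdis : Disjoint D₁ D₀ := by
      rw [hD₁, hD₀, disjoint_filter]
      intro y _ hy hy'
      omega
    have hun : D = D₁ ∪ D₀ := by
      ext y
      rw [hD₁, hD₀, mem_union, mem_filter, mem_filter]
      constructor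
      · intro hy
        rcases (hmin y hy).lt_or_eq with h | h
        · exact Or.inl ⟨hy, h⟩
        · exact Or.inr ⟨hy, h.symm⟩
      · rintro (h | h) <;> exact h.1
    have h₀ : D₀.Nonempty := ⟨ym, by rw [hD₀, mem_filter]; exact ⟨hym, hl.symm⟩⟩
    have h₁ : D₁.Nonempty := ⟨y₁, by
      rw [hD₁, mem_filter]
      exact ⟨hy₁, lt_of_le_of_ne (hmin y₁ hy₁) (Ne.symm hne₁)⟩⟩
    have hss1 : D₁ ⊂ D := by
      refine ⟨by rw [hD₁]; exact filter_subset _ _, fun hsub => ?_⟩
      have h2 := hsub hym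
      rw [hD₁, mem_filter] at h2
      omega
    have hp1 : (0 : ℝ) < D₁.card := by exact_mod_cast card_pos.2 h₁
    have hp0 : (0 : ℝ) < D₀.card := by exact_mod_cast card_pos.2 h₀
    have hsum : (D.card : ℝ) = D₁.card + D₀.card := by
      conv_lhs => rw [hun]
      rw [card_union_of_disjoint hdis]
      push_cast
      ring
    have hpD : (0 : ℝ) < D.card := by linarith
    have hF := Fd_split (q := q) (ps := ps) h₀ h₁ hsum rfl rfl (Psi_split hmin hD₀ hD₁ h₀)
    have i0 := ihp D₀ h₀
    have i1 := ih D₁ hss1 h₁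
    have hη : (D₁.card : ℝ) / D.card ≤ 1 := by
      rw [div_le_one hpD]
      linarith only [hsum]
    have hη0 : (0 : ℝ) ≤ D₁.card / D.card := div_nonneg (Nat.cast_nonneg _) (Nat.cast_nonneg _)
    have hθ0 : (0 : ℝ) ≤ D₀.card / D.card := div_nonneg (Nat.cast_nonneg _) (Nat.cast_nonneg _)
    have h3 := mul_nonpos_of_nonneg_of_nonpos hη0 (Real.log_nonpos hη0 hη)
    have h4 := mul_nonneg hθ0 i0
    have h5 := mul_nonneg hη0 i1
    rw [hF]
    linarith only [h3, h4, h5]

/-- the growth of the sums, when the defect is not too small -/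
theorem sums_grow {A : Finset ℕ} (hA : A.Nonempty) {L s Φ : ℝ} (hL : L = Real.log A.card)
    (hsum : ∀ lam : ℝ, 0 < lam → lam ≤ 1 → ∀ j : ℕ, 1 ≤ j →
        Φ ≤ 4 * W * (Real.log (it al A (2 * j)).card - Real.log (it al A j).card) +
          2 * lam * Real.log (it al A j).card +
          Real.log (576 / lam ^ 2) * ((Q0 (100 / lam) : ℝ) + 1))
    (hsΦ : s * L ≤ Φ) (hs0 : 0 ≤ s) (hs1 : s ≤ 1) (hcase : 16000 ≤ s * Real.log (2 + L))
    (hL1 : 1 < L) {n : ℕ} (hn : (2 : ℝ) ^ n ≤ (2 + L) ^ 2) :
    (1 + 1 / 64000000 * s * n) * L ≤ Real.log (it al A (2 ^ n)).card := by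
  have hAc : (0 : ℝ) < A.card := by exact_mod_cast card_pos.2 hA
  have hL0 : 0 < L := by linarith only [hL1]
  obtain ⟨l, hl⟩ : ∃ l : ℝ, l = Real.log (2 + L) := ⟨_, rfl⟩
  have hl0 : 0 < l := by
    rw [hl]
    exact Real.log_pos (by linarith only [hL0])
  have hexp : Real.exp l = 2 + L := by
    rw [hl, Real.exp_log (by linarith)]
  rw [← hl] at hcase
  have hsp : 0 < s := by
    rcases hs0.lt_or_eq with h | h
    · exact h
    · rw [← h, zero_mul] at hcase
      linarith only [hcase]
  have hl16 : 16000 ≤ l := by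
    have : s * l ≤ 1 * l := mul_le_mul_of_nonneg_right hs1 hl0.le
    linarith
  have hL2 : 2 ≤ L := by
    have := Real.add_one_le_exp l
    linarith only [hexp, hl16, this]
  have hnl : (n : ℝ) ≤ 3 * l := by
    have h2 : Real.log ((2 : ℝ) ^ n) ≤ Real.log ((2 + L) ^ 2) :=
      Real.log_le_log (by positivity) hn
    rw [Real.log_pow, Real.log_pow, ← hl] at h2
    push_cast at h2
    have h3 := Real.log_two_gt_d9
    have h4 : (n : ℝ) * (2 / 3) ≤ n * Real.log 2 :=
      mul_le_mul_of_nonneg_left (by linarith) (Nat.cast_nonneg n)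
    linarith
  obtain ⟨b, hb⟩ : ∃ b : ℝ, b = 1 + n / 64000000 * s := ⟨_, rfl⟩
  have hb1 : 1 ≤ b := by
    rw [hb]
    have : 0 ≤ (n : ℝ) / 64000000 * s := by positivity
    linarith only [this]
  have hbp : 0 < b := by linarith only [hb1]
  have hgoal : 1 + 1 / 64000000 * s * (n : ℝ) = b := by
    rw [hb]
    ring
  rw [hgoal]
  by_contra hcon
  push Not at hcon
  obtain ⟨lam, hlam⟩ : ∃ lam : ℝ, lam = s / (8 * b) := ⟨_, rfl⟩
  have hlam0 : 0 < lam := by rw [hlam]; positivity
  have hlam1 : lam ≤ 1 := by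
    rw [hlam, div_le_one (by positivity)]
    linarith only [hs1, hb1]
  have herr := Key_err hL2 hsp (by rw [← hl]; exact hcase) hb (by rw [← hl]; exact hnl)
    hlam hb1
  have hmono : ∀ i, i ≤ n → Real.log (it al A (2 ^ i)).card ≤ b * L := by
    intro i hi
    have h2 := it_mono (α := al) hA (Nat.pow_le_pow_right (n := 2) (by norm_num) hi)
    have h3 : 0 < (it al A (2 ^ i)).card := card_pos.2 (it_nonempty hA _)
    have h4 : Real.log (it al A (2 ^ i)).card ≤ Real.log (it al A (2 ^ n)).card :=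
      Real.log_le_log (by exact_mod_cast h3) (by exact_mod_cast h2)
    linarith only [hcon, h4]
  have hstep : ∀ i, i < n → s * L / 64000000 ≤
      Real.log (it al A (2 ^ (i + 1))).card - Real.log (it al A (2 ^ i)).card := by
    intro i hi
    have h2 := hsum lam hlam0 hlam1 (2 ^ i) Nat.one_le_two_pow
    have h3 : 2 * lam * Real.log (it al A (2 ^ i)).card ≤ s * L / 4 := by
      have h4 : 2 * lam * Real.log (it al A (2 ^ i)).card ≤ 2 * lam * (b * L) :=
        mul_le_mul_of_nonneg_left (hmono i hi.le) (by positivity)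
      have h5 : 2 * lam * (b * L) = s * L / 4 := by
        rw [hlam]
        field_simp
        ring
      linarith only [h4, h5]
    have h6 : 2 * 2 ^ i = 2 ^ (i + 1) := by rw [pow_succ]; ring
    rw [h6] at h2
    unfold W at h2
    linarith only [hsΦ, herr, h2, h3]
  have hind : ∀ i, i ≤ n → L + i * (s * L / 64000000) ≤
      Real.log (it al A (2 ^ i)).card := by
    intro i
    induction i with
    | zero =>
      intro _
      have h2 := it_card_ge (α := al) hA (fun a _ b _ h => by
        have h3 : (a : ℤ) = b := h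
        exact_mod_cast h3) (Nat.one_le_two_pow (n := 0))
      have h3 : L ≤ Real.log (it al A (2 ^ 0)).card := by
        rw [hL]
        exact Real.log_le_log (by linarith only [hAc]) (by exact_mod_cast h2)
      simp only [Nat.cast_zero, zero_mul, add_zero]
      exact h3
    | succ i ih =>
      intro hi
      have h2 := ih (by omega)
      have h3 := hstep i (by omega)
      push_cast
      linarith only [h2, h3]
  have h2 := hind n le_rfl
  have h3 : b * L = L + n * (s * L / 64000000) := by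
    rw [hb]
    ring
  linarith only [hcon, h2, h3]

/-- SUM-YIELD in the form used: `u = 1 - s` -/
theorem yield_pow {A : Finset ℕ} (hA : A.Nonempty) {L u F X : ℝ} {h : ℕ} (hh : 1 ≤ h)
    (hL : L = Real.log A.card) (hL1 : 1 < L) (hu0 : 0 ≤ u) (hu1 : u ≤ 1) (hF : F = u * L)
    (hX1 : L ≤ X)
    (hX : ∀ δ : ℝ, 0 < δ → δ ≤ 1 / 2 → h * L * (1 - δ) - 16 * h * Real.log (h / δ) * F ≤ X) :
    h * L * (1 - 33 * u * Real.log (h / u)) ≤ X := by
  have hhp : (0 : ℝ) < h := by exact_mod_cast hh
  have hh1 : (1 : ℝ) ≤ h := by exact_mod_cast hh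
  have hl2 := Real.log_two_gt_d9
  rcases hu0.lt_or_eq with hu | hu
  · rcases Nat.lt_or_ge h 2 with h2 | h2
    · have h3 : h = 1 := by omega
      subst h3
      have h4 : 0 ≤ Real.log (((1 : ℕ) : ℝ) / u) := by
        apply Real.log_nonneg
        rw [le_div_iff₀ hu]
        push_cast
        linarith only [hu1]
      have h5 : 0 ≤ L * (33 * u * Real.log (((1 : ℕ) : ℝ) / u)) := by positivity
      push_cast at h5 ⊢
      linarith
    · have hh2 : (2 : ℝ) ≤ h := by exact_mod_cast h2
      have h3 := hX (u / 2) (by linarith only [hu]) (by linarith only [hu1])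
      obtain ⟨g, hg⟩ : ∃ g : ℝ, g = Real.log (h / u) := ⟨_, rfl⟩
      have hg2 : Real.log 2 ≤ g := by
        rw [hg]
        apply Real.log_le_log (by norm_num)
        rw [le_div_iff₀ hu]
        linarith only [hu1, hh2]
      have h4 : Real.log (h / (u / 2)) = Real.log 2 + g := by
        have : (h : ℝ) / (u / 2) = 2 * (h / u) := by field_simp
        rw [this, Real.log_mul (by norm_num) (by positivity), hg]
      rw [h4, hF] at h3
      rw [← hg]
      have h5 : u / 2 + 16 * (Real.log 2 + g) * u ≤ 33 * u * g := by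
        have h6 : 1 / 2 + 16 * (Real.log 2 + g) ≤ 33 * g := by linarith only [hl2, hg2]
        have := mul_le_mul_of_nonneg_left h6 hu.le
        linarith only [this]
      have h6 := mul_le_mul_of_nonneg_left h5 (show 0 ≤ h * L by positivity)
      linarith only [h3, h6]
  · -- `u = 0`
    rw [← hu] at hF ⊢
    have hF0 : F = 0 := by rw [hF, zero_mul]
    rw [hF0] at hX
    have hgoal : (h : ℝ) * L * (1 - 33 * 0 * Real.log (h / 0)) = h * L := by ring
    rw [hgoal]
    by_contra hcon
    push Not at hcon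
    have hM : 0 < (h : ℝ) * L := by positivity
    obtain ⟨e, he⟩ : ∃ e : ℝ, e = (h * L - X) / (h * L) := ⟨_, rfl⟩
    have he0 : 0 < e := by
      rw [he]
      exact div_pos (by linarith only [hcon]) hM
    have h1 := hX (min (1 / 2) (e / 2)) (lt_min (by norm_num) (by linarith only [he0])) (min_le_left _ _)
    have h2 : min (1 / 2) (e / 2) ≤ e / 2 := min_le_right _ _
    have h3 := mul_le_mul_of_nonneg_left h2 hM.le
    have h4 : h * L * (e / 2) = (h * L - X) / 2 := by
      rw [he]
      field_simp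
    linarith only [hcon, h1, h3, h4]

/-- positive integers: one number `s` controls everything -/
theorem posFour {A : Finset ℕ} (hA4 : 4 ≤ A.card) (hpos : ∀ y ∈ A, 0 < y) {L : ℝ}
    (hL : L = Real.log A.card) :
    ∃ s : ℝ, 0 ≤ s ∧ s ≤ 1 ∧
      (∀ k : ℕ, 2 ≤ k → k * L * (1 - 13 * s * Real.log k) ≤ Real.log (it be A k).card) ∧
      (16000 ≤ s * Real.log (2 + L) → ∀ n : ℕ, (2 : ℝ) ^ n ≤ (2 + L) ^ 2 →
        (1 + 1 / 64000000 * s * n) * L ≤ Real.log (it al A (2 ^ n)).card) ∧
      (∀ n : ℕ, (1 + 1 / 32000000 * (1 - s) * n) * L ≤ Real.log (it be A (2 ^ n)).card) ∧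
      (∀ h : ℕ, 1 ≤ h → h * L * (1 - 33 * (1 - s) * Real.log (h / (1 - s))) ≤
        Real.log (it al A h).card) := by
  have hA : A.Nonempty := card_pos.1 (by omega)
  have hAc : (4 : ℝ) ≤ A.card := by exact_mod_cast hA4
  have hL1 : 1 < L := by
    rw [hL]
    have h2 : Real.log 4 ≤ Real.log A.card := Real.log_le_log (by norm_num) hAc
    have h3 : Real.log 4 = 2 * Real.log 2 := by
      rw [show (4 : ℝ) = 2 ^ 2 by norm_num, Real.log_pow]; norm_num
    have h4 := Real.log_two_gt_d9
    linarith only [h2, h3, h4]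
  have hL0 : 0 < L := by linarith only [hL1]
  obtain ⟨ps, hprime, hnd, hdet⟩ := exists_primes hpos
  obtain ⟨Φ, hΦ⟩ : ∃ Φ : ℝ, Φ = Psi ps A / A.card := ⟨_, rfl⟩
  have hΦ0 : 0 ≤ Φ := by rw [hΦ]; exact div_nonneg (Psi_nonneg ps A) (Nat.cast_nonneg _)
  have hF := Fd_nonneg ps A hA
  have hFd : Fd ps A = L - Φ := by
    unfold Fd
    rw [← hL, ← hΦ]
  rw [hFd] at hF
  obtain ⟨s, hs⟩ : ∃ s : ℝ, s = Φ / L := ⟨_, rfl⟩
  have hsL : s * L = Φ := by
    rw [hs]
    field_simp
  have hs0 : 0 ≤ s := by rw [hs]; positivity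
  have hs1 : s ≤ 1 := by
    rw [hs, div_le_one hL0]
    linarith only [hF]
  refine ⟨s, hs0, hs1, ?_, ?_, ?_, ?_⟩
  · intro k hk
    have hk2 : (2 : ℝ) ≤ k := by exact_mod_cast hk
    have hlk : Real.log 2 ≤ Real.log k := Real.log_le_log (by norm_num) hk2
    have hl2 := Real.log_two_gt_d9
    have h1 := prod_side hk hA hpos ps hdet
    rw [← hL, ← hΦ, ← hsL] at h1
    have h3 : (2 * Real.log k + 7) * (s * L) ≤ 13 * Real.log k * (s * L) :=
      mul_le_mul_of_nonneg_right (by linarith only [hlk, hl2]) (by positivity)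
    have h4 := mul_le_mul_of_nonneg_left h3 (show (0 : ℝ) ≤ k by positivity)
    linarith only [h1, h4]
  · intro hcase n hn
    apply sums_grow hA hL (Φ := Φ) _ hsL.le hs0 hs1 hcase hL1 hn
    intro lam h0 h1 j hj
    rw [hΦ]
    exact sumKey hA hpos hprime hnd h0 h1 hj
  · intro n
    have h1 := pay_pow hprime hA hpos hdet n
    rw [← hL, ← hΦ, ← hsL] at h1
    refine le_trans (le_of_eq ?_) h1
    ring
  · intro h hh
    apply yield_pow hA hh hL hL1 (by linarith only [hs1]) (by linarith only [hs0]) (F := L - Φ) (by rw [← hsL]; ring)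
    · have h2 := it_card_ge (α := al) hA (fun a _ b _ h => by
        have h3 : (a : ℤ) = b := h
        exact_mod_cast h3) hh
      rw [hL]
      exact Real.log_le_log (by linarith only [hAc]) (by exact_mod_cast h2)
    · intro δ hδ0 hδ1
      have h1 := sum_yield_it hprime hA hpos hh hδ0 hδ1
      rw [hFd, ← hL] at h1
      exact h1

end Pool.Agent.Helper2.LD
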